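import Pool.Agent.Helper98.RS.C2
import Pool.Agent.Helper98.RS.C4

/-!
# Last step of RS: all primes at once
-/

set_option autoImplicit false

open scoped Pointwise commutatorElement

namespace Pool.Agent.Helper41.LS

open Subgroup Pool.Agent.Helper98.RS

/-- A nontrivial element of a finite nilpotent group survives in a quotient of prime power order. -/
theorem sylow_proj {Q : Type} [Group Q] [Finite Q] (hQ : Group.IsNilpotent Q) (g : Q)
    (hg : g ≠ 1) : ∃ (p : ℕ) (_ : p.Prime) (R : Type) (_ : Group R) (_ : Finite R) (f : Q →* R),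
      Function.Surjective f ∧ IsPGroup p R ∧ f g ≠ 1 := by
  obtain ⟨e⟩ : Nonempty
      ((∀ p : (Nat.card Q).primeFactors, ∀ P : Sylow p Q, (↑P : Subgroup Q)) ≃* Q) :=
    (Group.isNilpotent_of_finite_tfae (G := Q)).out 0 4 rfl rfl |>.mp hQ
  have h1 : e.symm g ≠ 1 := by
    intro h
    apply hg
    have := congrArg e h
    rwa [MulEquiv.apply_symm_apply, map_one] at this
  have h2 : ∃ p : (Nat.card Q).primeFactors, ∃ P : Sylow p Q, e.symm g p P ≠ 1 := by
    by_contra hcon
    push Not at hcon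
    exact h1 (by funext p P; exact hcon p P)
  obtain ⟨p, P, hP⟩ := h2
  have hpp : Nat.Prime (p : ℕ) := Nat.prime_of_mem_primeFactors p.2
  have : Fact (Nat.Prime (p : ℕ)) := ⟨hpp⟩
  refine ⟨p, hpp, (P : Subgroup Q), inferInstance, inferInstance,
    ((Pi.evalMonoidHom (fun P : Sylow (p : ℕ) Q => (P : Subgroup Q)) P).comp
      (Pi.evalMonoidHom (fun p : (Nat.card Q).primeFactors => ∀ P : Sylow (p : ℕ) Q,
        (P : Subgroup Q)) p)).comp e.symm.toMonoidHom, ?_, P.isPGroup', hP⟩
  intro y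
  classical
  refine ⟨e (Pi.mulSingle p (Pi.mulSingle P y)), ?_⟩
  simp

section Mult

variable {Γ : Type} [Group Γ]

private theorem ap_left (a b x : Γ) : ⁅a * b, x⁆ = a * ⁅b, x⁆ * a⁻¹ * ⁅a, x⁆ := by
  simp only [commutatorElement_def]; group

private theorem ap_pow_left (a x : Γ) (h : ∀ y : Γ, y * ⁅a, x⁆ = ⁅a, x⁆ * y) (n : ℕ) :
    ⁅a ^ n, x⁆ = ⁅a, x⁆ ^ n := by
  induction n with
  | zero => simp
  | succ n ih =>
    have h1 : ∀ (k : ℕ) (y : Γ), y * ⁅a, x⁆ ^ k = ⁅a, x⁆ ^ k * y := by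
      intro k y
      exact ((show Commute y ⁅a, x⁆ from h y).pow_right k).eq
    rw [pow_succ', ap_left, ih, h1 n a, mul_assoc (⁅a, x⁆ ^ n), mul_inv_cancel, mul_one, pow_succ]

private theorem ap_pow_right (a x : Γ) (h : ∀ y : Γ, y * ⁅a, x⁆ = ⁅a, x⁆ * y) (n : ℕ) :
    ⁅a, x ^ n⁆ = ⁅a, x⁆ ^ n := by
  have h2 : ∀ y : Γ, y * ⁅x, a⁆ = ⁅x, a⁆ * y := by
    intro y
    rw [← commutatorElement_inv]
    exact ((show Commute y ⁅a, x⁆ from h y).inv_right).eq
  have h3 := ap_pow_left x a h2 n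
  rw [← commutatorElement_inv, h3, ← commutatorElement_inv, inv_pow, inv_inv]

/-- Powers of the elements of the lower central series. -/
theorem pow_mem_next (H : Subgroup Γ) [H.Normal] (e : ℕ) (he : ∀ g : Γ, g ^ e ∈ H) (i : ℕ) :
    ∀ z ∈ (⊤ : Subgroup Γ).lowerCentralSeries i, z ^ (e ^ (i + 1)) ∈
      H.lowerCentralSeries i ⊔ (⊤ : Subgroup Γ).lowerCentralSeries (i + 1) := by
  induction i with
  | zero =>
    intro z _
    rw [pow_one]
    exact (le_sup_left : H.lowerCentralSeries 0 ≤ _) (he z)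
  | succ i ih =>
    set B : Subgroup Γ := H.lowerCentralSeries (i + 1) ⊔
      (⊤ : Subgroup Γ).lowerCentralSeries (i + 1 + 1) with hB
    have hBn : B.Normal := by rw [hB]; infer_instance
    have hC2 : (⊤ : Subgroup Γ).lowerCentralSeries (i + 1 + 1) ≤ B := le_sup_right
    have hD : H.lowerCentralSeries (i + 1) ≤ B := le_sup_left
    have hcent : ∀ z ∈ (⊤ : Subgroup Γ).lowerCentralSeries (i + 1), ∀ y : Γ ⧸ B,
        y * (QuotientGroup.mk z : Γ ⧸ B) = (QuotientGroup.mk z : Γ ⧸ B) * y := by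
      intro z hz y
      obtain ⟨u, rfl⟩ := QuotientGroup.mk_surjective y
      have h1 : ⁅z, u⁆ ∈ B := hC2 (Subgroup.commutator_mem_commutator hz (Subgroup.mem_top u))
      have h2 : ⁅(QuotientGroup.mk z : Γ ⧸ B), (QuotientGroup.mk u : Γ ⧸ B)⁆ = 1 := by
        have := (QuotientGroup.eq_one_iff (N := B) ⁅z, u⁆).2 h1
        rw [← this]
        rfl
      rw [commutatorElement_eq_one_iff_mul_comm] at h2
      exact h2.symm
    intro z hz
    rw [Subgroup.lowerCentralSeries_succ, Subgroup.commutator_def] at hz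
    have key : (QuotientGroup.mk z : Γ ⧸ B) ^ (e ^ (i + 1 + 1)) = 1 ∧
        z ∈ (⊤ : Subgroup Γ).lowerCentralSeries (i + 1) := by
      induction hz using Subgroup.closure_induction with
      | mem x hx =>
        obtain ⟨p, hp, q, hq, rfl⟩ := hx
        have hpq : ⁅p, q⁆ ∈ (⊤ : Subgroup Γ).lowerCentralSeries (i + 1) :=
          Subgroup.commutator_mem_commutator hp hq
        refine ⟨?_, hpq⟩
        have hc := hcent _ hpq
        have h1 : (QuotientGroup.mk ⁅p, q⁆ : Γ ⧸ B) =
          ⁅(QuotientGroup.mk p : Γ ⧸ B), (QuotientGroup.mk q : Γ ⧸ B)⁆ := rfl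
        rw [h1] at hc ⊢
        have h2 := ap_pow_left _ _ hc (e ^ (i + 1))
        have hc' : ∀ y : Γ ⧸ B, y * ⁅(QuotientGroup.mk p : Γ ⧸ B) ^ (e ^ (i + 1)),
            (QuotientGroup.mk q : Γ ⧸ B)⁆ = ⁅(QuotientGroup.mk p : Γ ⧸ B) ^ (e ^ (i + 1)),
            (QuotientGroup.mk q : Γ ⧸ B)⁆ * y := by
          intro y
          rw [h2]
          exact ((show Commute y _ from hc y).pow_right _).eq
        have h3 := ap_pow_right _ _ hc' e
        rw [pow_succ (n := i + 1), pow_mul, ← h2, ← h3]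
        -- the element `p ^ (e ^ (i + 1))`
        have h4 := ih p hp
        rw [Subgroup.mem_sup_of_normal_right] at h4
        obtain ⟨w, hw, y, hy, hwy⟩ := h4
        have h5 : ⁅(QuotientGroup.mk p : Γ ⧸ B) ^ (e ^ (i + 1)),
            (QuotientGroup.mk q : Γ ⧸ B) ^ e⁆ = (QuotientGroup.mk ⁅w * y, q ^ e⁆ : Γ ⧸ B) := by
          rw [hwy]
          rfl
        rw [h5, QuotientGroup.eq_one_iff, ap_left]
        refine B.mul_mem (hBn.conj_mem _ (hC2 ?_) _) (hD ?_)
        · exact Subgroup.commutator_mem_commutator hy (Subgroup.mem_top _)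
        · exact Subgroup.commutator_mem_commutator hw (he q)
      | one => exact ⟨by simp, one_mem _⟩
      | mul x y _ _ hx hy =>
        refine ⟨?_, mul_mem hx.2 hy.2⟩
        have h1 : (QuotientGroup.mk (x * y) : Γ ⧸ B) =
          (QuotientGroup.mk x : Γ ⧸ B) * (QuotientGroup.mk y : Γ ⧸ B) := rfl
        have h2 : Commute (QuotientGroup.mk x : Γ ⧸ B) (QuotientGroup.mk y : Γ ⧸ B) :=
          (hcent x hx.2 _).symm
        rw [h1, h2.mul_pow, hx.1, hy.1, mul_one]
      | inv x _ hx =>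
        refine ⟨?_, inv_mem hx.2⟩
        have h1 : (QuotientGroup.mk x⁻¹ : Γ ⧸ B) = (QuotientGroup.mk x : Γ ⧸ B)⁻¹ := rfl
        rw [h1, inv_pow, hx.1, inv_one]
    have h6 : (QuotientGroup.mk (z ^ (e ^ (i + 1 + 1))) : Γ ⧸ B) = 1 := key.1
    rwa [QuotientGroup.eq_one_iff] at h6

end Mult

/-- A central element of infinite order of a finitely generated nilpotent group survives in a
finite `2`-quotient. -/
theorem surv_two {Q : Type} [Group Q] (hfg : Group.FG Q) (hn : Group.IsNilpotent Q) (w : Q)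
    (hc : ∀ x : Q, x * w = w * x) (hinf : ∀ n : ℕ, 0 < n → w ^ n ≠ 1) :
    ∃ (R : Type) (_ : Group R) (_ : Finite R) (f : Q →* R), Function.Surjective f ∧
      IsPGroup 2 R ∧ f w ≠ 1 := by
  set B : Subgroup Q := Subgroup.zpowers (w ^ 2) with hB
  have hBn : B.Normal := by
    refine ⟨fun y hy u => ?_⟩
    obtain ⟨k, rfl⟩ := hy
    have h1 : Commute u ((w ^ 2) ^ k) :=
      ((show Commute u w from hc u).pow_right 2).zpow_right k
    simp only
    rw [h1.eq, mul_assoc, mul_inv_cancel, mul_one]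
    exact ⟨k, rfl⟩
  have hwB : w ∉ B := by
    rintro ⟨k, hk⟩
    simp only at hk
    have h1 : w ^ (2 * k - 1) = 1 := by
      rw [zpow_sub, zpow_mul, zpow_one]
      have : w ^ (2 : ℤ) = w ^ (2 : ℕ) := by norm_cast
      rw [this, hk, mul_inv_cancel]
    have h2 : w ^ (2 * k - 1).natAbs = 1 := by
      rcases Int.natAbs_eq (2 * k - 1) with h3 | h3
      · rw [h3, zpow_natCast] at h1
        exact h1
      · rw [h3, zpow_neg, zpow_natCast, inv_eq_one] at h1
        exact h1
    exact hinf _ (by omega) h2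
  have hfgB : Group.FG (Q ⧸ B) := Group.fg_of_surjective (QuotientGroup.mk'_surjective B)
  have hnB : Group.IsNilpotent (Q ⧸ B) := inferInstance
  have hw1 : (QuotientGroup.mk w : Q ⧸ B) ≠ 1 := by
    rw [Ne, QuotientGroup.eq_one_iff]
    exact hwB
  obtain ⟨N, hNn, hNf, hN⟩ := nil_resfinite hfgB hnB _ hw1
  have hfin : Finite ((Q ⧸ B) ⧸ N) := inferInstance
  have hnil : Group.IsNilpotent ((Q ⧸ B) ⧸ N) := inferInstance
  have hw2 : (QuotientGroup.mk (QuotientGroup.mk w : Q ⧸ B) : (Q ⧸ B) ⧸ N) ≠ 1 := by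
    rw [Ne, QuotientGroup.eq_one_iff]
    exact hN
  obtain ⟨p, hp, R, hR, hRf, f, hfs, hfp, hfw⟩ := sylow_proj hnil _ hw2
  have hsq : (f (QuotientGroup.mk (QuotientGroup.mk w : Q ⧸ B))) ^ 2 = 1 := by
    rw [← map_pow]
    have h1 : (QuotientGroup.mk (QuotientGroup.mk w : Q ⧸ B) : (Q ⧸ B) ⧸ N) ^ 2 =
      QuotientGroup.mk (QuotientGroup.mk (w ^ 2) : Q ⧸ B) := rfl
    have h2 : (QuotientGroup.mk (w ^ 2) : Q ⧸ B) = 1 := by
      rw [QuotientGroup.eq_one_iff]
      exact Subgroup.mem_zpowers _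
    rw [h1, h2]
    simp
  have hp2 : p = 2 := by
    obtain ⟨k, hk⟩ := hfp (f (QuotientGroup.mk (QuotientGroup.mk w : Q ⧸ B)))
    by_contra hne
    have hcop : Nat.Coprime (p ^ k) 2 := by
      apply Nat.Coprime.pow_left
      rw [Nat.coprime_primes hp Nat.prime_two]
      exact hne
    apply hfw
    have h3 := Nat.dvd_gcd (orderOf_dvd_of_pow_eq_one hk) (orderOf_dvd_of_pow_eq_one hsq)
    rw [hcop.gcd_eq_one, Nat.dvd_one, orderOf_eq_one_iff] at h3
    exact h3
  subst hp2
  refine ⟨R, hR, hRf, (f.comp (QuotientGroup.mk' N)).comp (QuotientGroup.mk' B), ?_, hfp, hfw⟩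
  exact (hfs.comp (QuotientGroup.mk'_surjective N)).comp (QuotientGroup.mk'_surjective B)

/-- A surjection onto a finite `p`-group gives a normal subgroup as in the hypothesis. -/
private theorem ap_ker {G R : Type} [Group G] [Group R] [Finite R] (f : G →* R) (p : ℕ)
    (hp : IsPGroup p R) : f.ker.FiniteIndex ∧ ∀ g : G, ∃ k, g ^ p ^ k ∈ f.ker := by
  refine ⟨inferInstance, fun g => ?_⟩
  obtain ⟨k, hk⟩ := hp (f g)
  exact ⟨k, by rw [MonoidHom.mem_ker, map_pow]; exact hk⟩

/-- If for every prime the derived lengths of the finite `p`-quotients are bounded, then the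
derived lengths of all finite nilpotent quotients are bounded. -/
theorem all_primes {G : Type} [Group G] (hfg : Group.FG G) (h : SubExp' G) (m : ℕ → ℕ)
    (hm : ∀ p : ℕ, p.Prime → ∀ N : Subgroup G, N.Normal → N.FiniteIndex →
      (∀ g : G, ∃ k, g ^ p ^ k ∈ N) → derivedSeries G (m p) ≤ N) :
    ∃ k, ∀ (N : Subgroup G) (_ : N.Normal), N.FiniteIndex → Group.IsNilpotent (G ⧸ N) →
      derivedSeries G k ≤ N := by
  classical
  -- the soluble quotient
  set D : Subgroup G := derivedSeries G (m 2) with hD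
  have hDn : D.Normal := by rw [hD]; infer_instance
  have hΓfg : Group.FG (G ⧸ D) := Group.fg_of_surjective (QuotientGroup.mk'_surjective D)
  have hΓs : Group.IsSolvable (G ⧸ D) := by
    refine ⟨⟨m 2, ?_⟩⟩
    rw [← map_derivedSeries_eq (QuotientGroup.mk'_surjective D), ← hD,
      Subgroup.map_eq_bot_iff, QuotientGroup.ker_mk']
  have hΓe : SubExp' (G ⧸ D) :=
    Pool.Agent.Helper41.Gap.subexp_of_surjective _ (QuotientGroup.mk'_surjective D) h
  obtain ⟨H, hHf, hHn⟩ := milnor_wolf hΓfg hΓs hΓe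
  set K := H.normalCore with hK
  have hKf : K.FiniteIndex := H.finiteIndex_normalCore
  have hKn : Group.IsNilpotent K := by
    have h1 : K ≤ H := H.normalCore_le
    have : Group.IsNilpotent (K.subgroupOf H) := Subgroup.isNilpotent _
    exact Group.nilpotent_of_mulEquiv (Subgroup.subgroupOfEquivOfLe h1)
  obtain ⟨c, hc⟩ := K.isNilpotent_iff_lowerCentralSeries.1 hKn
  have hKi : 0 < K.index := Nat.pos_of_ne_zero hKf.index_ne_zero
  set E : ℕ := K.index ^ (c + 1) with hE
  have hEpos : 0 < E := pow_pos hKi _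
  have hpow := pow_mem_next K K.index (fun g => K.pow_index_mem g) c
  rw [hc, bot_sup_eq] at hpow
  -- transfer to `G`
  have hlift : ∀ (i : ℕ), ((⊤ : Subgroup G).lowerCentralSeries i).map (QuotientGroup.mk' D) =
      (⊤ : Subgroup (G ⧸ D)).lowerCentralSeries i := by
    intro i
    rw [Subgroup.map_lowerCentralSeries, Subgroup.map_top_of_surjective _
      (QuotientGroup.mk'_surjective D)]
  have hG : ∀ z ∈ (⊤ : Subgroup G).lowerCentralSeries c, ∃ y ∈ (⊤ : Subgroup G).lowerCentralSeries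
      (c + 1), ∃ d ∈ D, z ^ E = y * d := by
    intro z hz
    have h1 : (QuotientGroup.mk' D) z ∈ (⊤ : Subgroup (G ⧸ D)).lowerCentralSeries c := by
      rw [← hlift]
      exact Subgroup.mem_map_of_mem _ hz
    have h2 := hpow _ h1
    rw [← hlift, ← map_pow] at h2
    obtain ⟨y, hy, hyz⟩ := h2
    refine ⟨y, hy, y⁻¹ * z ^ E, ?_, by group⟩
    rw [QuotientGroup.mk'_apply, QuotientGroup.mk'_apply, QuotientGroup.eq] at hyz
    exact hyz
  -- the nilpotent quotient
  set C : Subgroup G := (⊤ : Subgroup G).lowerCentralSeries (c + 1) with hC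
  have hCn : C.Normal := by rw [hC]; infer_instance
  have hQfg : Group.FG (G ⧸ C) := Group.fg_of_surjective (QuotientGroup.mk'_surjective C)
  have hQc : (⊤ : Subgroup (G ⧸ C)).lowerCentralSeries (c + 1) = ⊥ := by
    rw [← Subgroup.map_top_of_surjective _ (QuotientGroup.mk'_surjective C),
      ← Subgroup.map_lowerCentralSeries, ← hC, Subgroup.map_eq_bot_iff, QuotientGroup.ker_mk']
  have hQn : Group.IsNilpotent (G ⧸ C) := Subgroup.nilpotent_iff_lowerCentralSeries.2 ⟨_, hQc⟩
  have hcentral : ∀ z ∈ (⊤ : Subgroup G).lowerCentralSeries c, ∀ x : G ⧸ C,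
      x * (QuotientGroup.mk z : G ⧸ C) = (QuotientGroup.mk z : G ⧸ C) * x := by
    intro z hz x
    obtain ⟨u, rfl⟩ := QuotientGroup.mk_surjective x
    have h1 : ⁅z, u⁆ ∈ C := Subgroup.commutator_mem_commutator hz (Subgroup.mem_top u)
    have h2 : ⁅(QuotientGroup.mk z : G ⧸ C), (QuotientGroup.mk u : G ⧸ C)⁆ = 1 := by
      have := (QuotientGroup.eq_one_iff (N := C) ⁅z, u⁆).2 h1
      rw [← this]
      rfl
    rw [commutatorElement_eq_one_iff_mul_comm] at h2
    exact h2.symm
  have htors : ∀ z ∈ (⊤ : Subgroup G).lowerCentralSeries c, ∃ n : ℕ, 0 < n ∧ z ^ n ∈ C := by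
    intro z hz
    by_contra hcon
    push Not at hcon
    obtain ⟨y, hy, d, hd, hyd⟩ := hG z hz
    have hzE : z ^ E ∈ (⊤ : Subgroup G).lowerCentralSeries c := pow_mem hz _
    obtain ⟨R, hR, hRf, f, hfs, hf2, hfw⟩ := surv_two hQfg hQn
      (QuotientGroup.mk (z ^ E) : G ⧸ C) (hcentral _ hzE) (by
        intro n hn hcon2
        have h3 : (QuotientGroup.mk ((z ^ E) ^ n) : G ⧸ C) = 1 := hcon2
        rw [QuotientGroup.eq_one_iff, ← pow_mul] at h3
        exact hcon _ (Nat.mul_pos hEpos hn) h3)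
    set F : G →* R := f.comp (QuotientGroup.mk' C) with hF
    have hker := ap_ker F 2 hf2
    have h4 := hm 2 Nat.prime_two F.ker inferInstance hker.1 hker.2 hd
    apply hfw
    have h5 : F (z ^ E) = 1 := by
      rw [hyd, map_mul, (MonoidHom.mem_ker).1 h4, mul_one, hF, MonoidHom.comp_apply,
        QuotientGroup.mk'_apply, (QuotientGroup.eq_one_iff y).2 hy, map_one]
    exact h5
  -- a uniform exponent
  obtain ⟨E', hE'pos, hE'⟩ : ∃ E' : ℕ, 0 < E' ∧
      ∀ z ∈ (⊤ : Subgroup G).lowerCentralSeries c, z ^ E' ∈ C := by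
    have hfgZ : (((⊤ : Subgroup G).lowerCentralSeries c).map (QuotientGroup.mk' C)).FG :=
      c4_fg (c + 1) (G ⧸ C) hQfg hQc _
    obtain ⟨S, hS⟩ := hfgZ
    have hS1 : ∀ s ∈ S, ∃ n : ℕ, 0 < n ∧ s ^ n = 1 := by
      intro s hs
      have : s ∈ ((⊤ : Subgroup G).lowerCentralSeries c).map (QuotientGroup.mk' C) := by
        rw [← hS]; exact Subgroup.subset_closure hs
      obtain ⟨z, hz, rfl⟩ := this
      obtain ⟨n, hn, hzn⟩ := htors z hz
      refine ⟨n, hn, ?_⟩
      rw [← map_pow, QuotientGroup.mk'_apply, QuotientGroup.eq_one_iff]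
      exact hzn
    choose! n hn1 hn2 using hS1
    refine ⟨∏ s ∈ S, n s, Finset.prod_pos hn1, fun z hz => ?_⟩
    have hz1 : (QuotientGroup.mk z : G ⧸ C) ∈ Subgroup.closure (S : Set (G ⧸ C)) := by
      rw [hS]
      exact Subgroup.mem_map_of_mem (QuotientGroup.mk' C) hz
    have hcomm : ∀ x ∈ Subgroup.closure (S : Set (G ⧸ C)), ∀ y : G ⧸ C, y * x = x * y := by
      intro x hx y
      rw [hS] at hx
      obtain ⟨u, hu, rfl⟩ := hx
      exact hcentral u hu y
    have key : ∀ x ∈ Subgroup.closure (S : Set (G ⧸ C)), x ^ (∏ s ∈ S, n s) = 1 := by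
      intro x hx
      induction hx using Subgroup.closure_induction with
      | mem s hs =>
        obtain ⟨k, hk⟩ := Finset.dvd_prod_of_mem n hs
        rw [hk, pow_mul, hn2 s hs, one_pow]
      | one => simp
      | mul x y hx hy h1 h2 =>
        have h3 : Commute x y := (hcomm x hx y).symm
        rw [h3.mul_pow, h1, h2, mul_one]
      | inv x _ h1 => rw [inv_pow, h1, inv_one]
    have h6 := key _ hz1
    have h7 : (QuotientGroup.mk (z ^ (∏ s ∈ S, n s)) : G ⧸ C) = 1 := h6
    rwa [QuotientGroup.eq_one_iff] at h7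
  -- primes that do not divide the exponent
  have hgood : ∀ p : ℕ, p.Prime → ¬ p ∣ E' → ∀ N : Subgroup G, N.Normal → N.FiniteIndex →
      (∀ g : G, ∃ k, g ^ p ^ k ∈ N) → derivedSeries G c ≤ N := by
    intro p hp hpE N hNn hNf hNp
    have hPp : IsPGroup p (G ⧸ N) := by
      intro g
      obtain ⟨u, rfl⟩ := QuotientGroup.mk_surjective g
      obtain ⟨k, hk⟩ := hNp u
      refine ⟨k, ?_⟩
      have : (QuotientGroup.mk (u ^ p ^ k) : G ⧸ N) = 1 := (QuotientGroup.eq_one_iff _).2 hk
      exact this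
    have : Fact p.Prime := ⟨hp⟩
    have hfin : Finite (G ⧸ N) := inferInstance
    have hPn : Group.IsNilpotent (G ⧸ N) := hPp.isNilpotent
    have hmapN : ∀ (i : ℕ), ((⊤ : Subgroup G).lowerCentralSeries i).map (QuotientGroup.mk' N) =
        (⊤ : Subgroup (G ⧸ N)).lowerCentralSeries i := by
      intro i
      rw [Subgroup.map_lowerCentralSeries, Subgroup.map_top_of_surjective _
        (QuotientGroup.mk'_surjective N)]
    have hstep : (⊤ : Subgroup (G ⧸ N)).lowerCentralSeries c ≤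
        (⊤ : Subgroup (G ⧸ N)).lowerCentralSeries (c + 1) := by
      rw [← hmapN c, ← hmapN (c + 1)]
      rintro _ ⟨z, hz, rfl⟩
      obtain ⟨k, hk⟩ := hPp ((QuotientGroup.mk' N) z)
      have h1 : ((QuotientGroup.mk' N) z) ^ E' ∈
          ((⊤ : Subgroup G).lowerCentralSeries (c + 1)).map (QuotientGroup.mk' N) := by
        rw [← map_pow]
        exact Subgroup.mem_map_of_mem _ (hE' z hz)
      have hcop : Nat.Coprime E' (p ^ k) := by
        apply Nat.Coprime.pow_right
        exact ((Nat.Prime.coprime_iff_not_dvd hp).2 hpE).symm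
      have h2 := Nat.gcd_eq_gcd_ab E' (p ^ k)
      rw [hcop.gcd_eq_one] at h2
      have h3 : (QuotientGroup.mk' N) z = (((QuotientGroup.mk' N) z) ^ E') ^
          (Nat.gcdA E' (p ^ k)) := by
        conv_lhs => rw [← zpow_one ((QuotientGroup.mk' N) z), ← Nat.cast_one (R := ℤ), h2]
        rw [zpow_add, zpow_mul, zpow_natCast, zpow_mul, zpow_natCast, hk, one_zpow, mul_one]
      rw [h3]
      exact zpow_mem h1 _
    have hall : ∀ j : ℕ, (⊤ : Subgroup (G ⧸ N)).lowerCentralSeries c ≤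
        (⊤ : Subgroup (G ⧸ N)).lowerCentralSeries (c + j) := by
      intro j
      induction j with
      | zero => exact le_refl _
      | succ j ih =>
        refine hstep.trans ?_
        rw [Subgroup.lowerCentralSeries_succ, ← add_assoc, Subgroup.lowerCentralSeries_succ]
        exact Subgroup.commutator_mono ih le_rfl
    obtain ⟨n, hn⟩ := Subgroup.nilpotent_iff_lowerCentralSeries.1 hPn
    have hbot : (⊤ : Subgroup (G ⧸ N)).lowerCentralSeries c = ⊥ := by
      rw [eq_bot_iff, ← hn]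
      exact (hall n).trans (Subgroup.lowerCentralSeries_antitone _ (Nat.le_add_left n c))
    have h4 : (⊤ : Subgroup G).lowerCentralSeries c ≤ N := by
      have h5 := hmapN c
      rw [hbot, Subgroup.map_eq_bot_iff, QuotientGroup.ker_mk'] at h5
      exact h5
    exact (Subgroup.derived_le_lower_central c).trans h4
  -- conclusion
  refine ⟨max c ((Finset.range (E' + 1)).sup m), fun N hNn hNf hNnil => ?_⟩
  intro g hg
  by_contra hgN
  have hfin : Finite (G ⧸ N) := inferInstance
  have hg1 : (QuotientGroup.mk g : G ⧸ N) ≠ 1 := by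
    rw [Ne, QuotientGroup.eq_one_iff]; exact hgN
  obtain ⟨p, hp, R, hR, hRf, f, hfs, hfp, hfg'⟩ := sylow_proj hNnil _ hg1
  set F : G →* R := f.comp (QuotientGroup.mk' N) with hF
  have hker := ap_ker F p hfp
  apply hfg'
  have h8 : g ∈ F.ker := by
    by_cases hpE : p ∣ E'
    · refine hm p hp F.ker inferInstance hker.1 hker.2 ?_
      refine derivedSeries_antitone G ?_ hg
      refine le_trans ?_ (le_max_right _ _)
      exact Finset.le_sup (f := m) (by
        rw [Finset.mem_range]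
        have := Nat.le_of_dvd hE'pos hpE
        omega)
    · refine hgood p hp hpE F.ker inferInstance hker.1 hker.2 ?_
      exact derivedSeries_antitone G (le_max_left _ _) hg
  exact h8

end Pool.Agent.Helper41.LS
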