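import Pool.Agent.Helper98.RS.Defs

/-!
# Last step of RS: growth of subgroups
-/

set_option autoImplicit false

open scoped Pointwise

namespace Pool.Agent.Helper41.LS

open Pool.Agent.Helper98.RS

section Ball

variable {G : Type} [Group G] {S : Set G}

private theorem tr_one : (1 : G) ∈ (({1} : Set G) ∪ S ∪ S⁻¹) := Or.inl (Or.inl rfl)

private theorem tr_inv : (({1} : Set G) ∪ S ∪ S⁻¹)⁻¹ = (({1} : Set G) ∪ S ∪ S⁻¹) := by
  ext x
  simp only [Set.mem_inv, Set.mem_union, Set.mem_singleton_iff, inv_eq_one, inv_inv]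
  tauto

theorem bl_mono {m n : ℕ} (h : m ≤ n) : Bl S m ⊆ Bl S n := Set.pow_subset_pow_right tr_one h

theorem bl_mul {m n : ℕ} {x y : G} (hx : x ∈ Bl S m) (hy : y ∈ Bl S n) : x * y ∈ Bl S (m + n) := by
  rw [Bl, pow_add]
  exact Set.mul_mem_mul hx hy

theorem bl_inv {n : ℕ} {x : G} (hx : x ∈ Bl S n) : x⁻¹ ∈ Bl S n := by
  have h1 : (Bl S n)⁻¹ = Bl S n := by
    rw [Bl, ← inv_pow, tr_inv]
  rw [← h1, Set.inv_mem_inv]
  exact hx

theorem bl_finite (hS : S.Finite) (n : ℕ) : (Bl S n).Finite := by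
  have h0 : (({1} : Set G) ∪ S ∪ S⁻¹).Finite :=
    ((Set.finite_singleton _).union hS).union hS.inv
  rw [Bl]
  induction n with
  | zero => rw [pow_zero]; exact Set.finite_one
  | succ n ih => rw [pow_succ]; exact ih.mul h0

theorem bl_exists (hgen : Subgroup.closure S = ⊤) (x : G) : ∃ n, x ∈ Bl S n := by
  have hx : x ∈ Subgroup.closure S := by rw [hgen]; trivial
  induction hx using Subgroup.closure_induction with
  | mem x hx =>
    refine ⟨1, ?_⟩
    rw [Bl, pow_one]
    exact Or.inl (Or.inr hx)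
  | one => exact ⟨0, by rw [Bl, pow_zero]; rfl⟩
  | mul x y _ _ hx hy =>
    obtain ⟨m, hm⟩ := hx
    obtain ⟨n, hn⟩ := hy
    exact ⟨m + n, bl_mul hm hn⟩
  | inv x _ hx =>
    obtain ⟨m, hm⟩ := hx
    exact ⟨m, bl_inv hm⟩

/-- The ball of a subgroup in its own generators. -/
theorem bl_image (H : Subgroup G) (S' : Set H) (c : ℕ) (hc : ∀ s ∈ S', (s : G) ∈ Bl S c) (n : ℕ) :
    ∀ x ∈ Bl S' n, (x : G) ∈ Bl S (c * n) := by
  induction n with
  | zero =>
    intro x hx
    rw [Bl, pow_zero, Set.mem_one] at hx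
    rw [hx, mul_zero, Bl, pow_zero]
    rfl
  | succ n ih =>
    intro x hx
    rw [Bl, pow_succ] at hx
    obtain ⟨y, hy, z, hz, rfl⟩ := hx
    rw [mul_add, mul_one]
    have hz' : (z : G) ∈ Bl S c := by
      rcases hz with (hz | hz) | hz
      · rw [Set.mem_singleton_iff] at hz
        rw [hz]
        exact Set.one_mem_pow tr_one
      · exact hc z hz
      · rw [Set.mem_inv] at hz
        have := bl_inv (hc _ hz)
        simpa using this
    exact bl_mul (ih y hy) hz'

end Ball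

/-- Growth of a subgroup with respect to any finite generating set. -/
theorem gb_of_gens {G : Type} [Group G] (S : Set G) (hSf : S.Finite)
    (hS : Subgroup.closure S = ⊤) (α α' : ℝ) (hα : α < α') (hG : GB S α)
    (H : Subgroup G) (S' : Set H) (hS'f : S'.Finite) : GB S' α' := by
  classical
  obtain ⟨n0, hn0⟩ := hG
  choose f hf using fun s : H => bl_exists hS (s : G)
  set c : ℕ := (hS'f.toFinset.sup f) + 1 with hc
  have hcf : ∀ s ∈ S', (s : G) ∈ Bl S c := by
    intro s hs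
    refine bl_mono ?_ (hf s)
    have : f s ≤ hS'f.toFinset.sup f := Finset.le_sup (by simpa using hs)
    omega
  have hc1 : 1 ≤ c := by omega
  have hlim : Filter.Tendsto (fun n : ℕ => (n : ℝ) ^ (α' - α)) Filter.atTop Filter.atTop :=
    (tendsto_rpow_atTop (by linarith)).comp tendsto_natCast_atTop_atTop
  obtain ⟨n1, hn1⟩ := Filter.eventually_atTop.1 (hlim.eventually_ge_atTop ((c : ℝ) ^ α))
  refine ⟨max (max n0 n1) 1, fun n hn => ?_⟩
  have hnn0 : n0 ≤ n := (le_max_left _ _).trans ((le_max_left _ _).trans hn)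
  have hnn1 : n1 ≤ n := (le_max_right _ _).trans ((le_max_left _ _).trans hn)
  have hn1' : 1 ≤ n := (le_max_right _ _).trans hn
  have hcn : n0 ≤ c * n := hnn0.trans (Nat.le_mul_of_pos_left n hc1)
  have h1 := hn0 (c * n) hcn
  have h2 : (Nat.card ↥(Bl S' n) : ℝ) ≤ (Nat.card ↥(Bl S (c * n)) : ℝ) := by
    have hfin := bl_finite hSf (c * n)
    have : Finite ↥(Bl S (c * n)) := hfin
    exact_mod_cast Nat.card_le_card_of_injective
      (fun x : ↥(Bl S' n) => (⟨((x : H) : G), bl_image H S' c hcf n x x.2⟩ : ↥(Bl S (c * n))))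
      (by
        intro x y hxy
        have h5 : ((x : H) : G) = ((y : H) : G) :=
          congrArg (fun z : ↥(Bl S (c * n)) => (z : G)) hxy
        exact Subtype.ext (Subtype.ext h5))
  refine h2.trans (h1.trans (Real.exp_le_exp.2 ?_))
  have hnpos : (0 : ℝ) < n := by exact_mod_cast hn1'
  have hcpos : (0 : ℝ) ≤ c := by positivity
  push_cast
  rw [Real.mul_rpow hcpos hnpos.le]
  have h3 := hn1 n hnn1
  calc (c : ℝ) ^ α * (n : ℝ) ^ α ≤ (n : ℝ) ^ (α' - α) * (n : ℝ) ^ α :=
        mul_le_mul_of_nonneg_right h3 (Real.rpow_nonneg hnpos.le _)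
    _ = (n : ℝ) ^ α' := by
        rw [← Real.rpow_add hnpos]
        congr 1
        ring

/-- Growth of a subgroup of finite index. -/
theorem gb_subgroup {G : Type} [Group G] (S : Set G) (hSf : S.Finite)
    (hS : Subgroup.closure S = ⊤) (α α' : ℝ) (hα : α < α') (hG : GB S α)
    (H : Subgroup G) (hH : H.FiniteIndex) :
    ∃ S' : Set H, S'.Finite ∧ Subgroup.closure S' = ⊤ ∧ GB S' α' := by
  have hfg : Group.FG G := by
    rw [Group.fg_def]
    exact ⟨hSf.toFinset, by rw [hSf.coe_toFinset, hS]⟩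
  have hHfg : Group.FG H := Subgroup.fg_of_index_ne_zero H
  obtain ⟨T, hT⟩ := Group.fg_def.1 hHfg
  exact ⟨T, T.finite_toSet, hT, gb_of_gens S hSf hS α α' hα hG H T T.finite_toSet⟩

end Pool.Agent.Helper41.LS
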